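import Mathlib
import Pool.Agent.R682.Star

/-!
# The orthogonal groups over the field with three elements do not have property `(∗)`
-/

set_option autoImplicit false

open Pool.Agent.R682
open scoped commutatorElement

namespace Pool.Agent.Results.MP_1b60fb_al.OrthogonalThree

variable {n : ℕ}

/-- short name for the full orthogonal group of the form `∑ xᵢ²` -/
abbrev Or (n : ℕ) := Matrix.orthogonalGroup (Fin n) (ZMod 3)

/-- short name for its derived subgroup -/
abbrev Om (n : ℕ) := commutator (Matrix.orthogonalGroup (Fin n) (ZMod 3))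

lemma sq_one : ∀ x : ZMod 3, x ≠ 0 → x ^ 2 = 1 := by decide

lemma coe_mul' (a b : Or n) : ((a * b : Or n) : Matrix (Fin n) (Fin n) (ZMod 3)) =
    (a : Matrix (Fin n) (Fin n) (ZMod 3)) * (b : Matrix (Fin n) (Fin n) (ZMod 3)) := rfl

/-! ### sign matrices -/

/-- a diagonal matrix with entries `ε i`, `ε i ^ 2 = 1` -/
def sg (e : Fin n → ZMod 3) (he : ∀ i, e i * e i = 1) : Or n :=
  ⟨Matrix.diagonal e, by
    rw [Matrix.mem_orthogonalGroup_iff, Matrix.diagonal_transpose,
      Matrix.diagonal_mul_diagonal, ← Matrix.diagonal_one]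
    congr 1
    ext1 i
    exact he i⟩

/-- the sign vector with `-1` exactly on `s` -/
def sgn (s : Finset (Fin n)) (i : Fin n) : ZMod 3 := if i ∈ s then -1 else 1

lemma sgn_sq (s : Finset (Fin n)) (i : Fin n) : sgn s i * sgn s i = 1 := by
  rw [sgn]; split_ifs <;> decide

/-- the diagonal matrix with `-1` exactly on `s` -/
def sd (s : Finset (Fin n)) : Or n := sg (sgn s) (sgn_sq s)

/-- permutation matrices -/
def pm (σ : Equiv.Perm (Fin n)) : Or n :=
  ⟨Equiv.Perm.permMatrix (ZMod 3) σ, by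
    rw [Matrix.mem_orthogonalGroup_iff, Matrix.transpose_permMatrix,
      ← Matrix.permMatrix_mul, inv_mul_cancel, Matrix.permMatrix_one]⟩

lemma sd_mulVec (s : Finset (Fin n)) (v : Fin n → ZMod 3) (i : Fin n) :
    (sd s : Matrix (Fin n) (Fin n) (ZMod 3)).mulVec v i = sgn s i * v i := by
  show (Matrix.diagonal (sgn s)).mulVec v i = _
  rw [Matrix.mulVec_diagonal]

lemma pm_mulVec (σ : Equiv.Perm (Fin n)) (v : Fin n → ZMod 3) (i : Fin n) :
    (pm σ : Matrix (Fin n) (Fin n) (ZMod 3)).mulVec v i = v (σ i) := by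
  show (Equiv.Perm.permMatrix (ZMod 3) σ).mulVec v i = _
  rw [Matrix.permMatrix_mulVec]; rfl

lemma ext_mulVec {a b : Or n} (h : ∀ v i, (a : Matrix (Fin n) (Fin n) (ZMod 3)).mulVec v i =
    (b : Matrix (Fin n) (Fin n) (ZMod 3)).mulVec v i) : a = b := by
  apply Subtype.ext
  apply Matrix.toLin'.injective
  refine LinearMap.ext fun v => ?_
  ext1 i
  exact h v i

lemma pm_inv (σ : Equiv.Perm (Fin n)) : (pm σ)⁻¹ = pm σ⁻¹ := by
  rw [inv_eq_iff_mul_eq_one]
  apply ext_mulVec
  intro v i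
  rw [coe_mul', ← Matrix.mulVec_mulVec, pm_mulVec, pm_mulVec]
  show v (σ.symm (σ i)) = (1 : Matrix (Fin n) (Fin n) (ZMod 3)).mulVec v i
  rw [Matrix.one_mulVec, Equiv.symm_apply_apply]

lemma sd_inv (s : Finset (Fin n)) : (sd s)⁻¹ = sd s := by
  rw [inv_eq_iff_mul_eq_one]
  apply ext_mulVec
  intro v i
  rw [coe_mul', ← Matrix.mulVec_mulVec, sd_mulVec, sd_mulVec, ← mul_assoc, sgn_sq, one_mul]
  show v i = (1 : Matrix (Fin n) (Fin n) (ZMod 3)).mulVec v i
  rw [Matrix.one_mulVec]

/-- the sign change of two coordinates lies in the derived subgroup -/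
lemma sd_pair_mem {i j : Fin n} (hij : i ≠ j) : sd {i, j} ∈ Om n := by
  have h : ⁅sd {i}, pm (Equiv.swap i j)⁆ = sd {i, j} := by
    rw [commutatorElement_def, pm_inv, sd_inv]
    apply ext_mulVec
    intro v k
    rw [coe_mul', coe_mul', coe_mul', ← Matrix.mulVec_mulVec, ← Matrix.mulVec_mulVec,
      ← Matrix.mulVec_mulVec, sd_mulVec, pm_mulVec, sd_mulVec, pm_mulVec, sd_mulVec,
      Equiv.swap_inv, Equiv.swap_apply_self, ← mul_assoc]
    congr 1
    simp only [sgn, Finset.mem_singleton, Finset.mem_insert]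
    by_cases h1 : k = i
    · subst h1
      rw [Equiv.swap_apply_left, if_pos rfl, if_neg hij.symm, if_pos (Or.inl rfl), mul_one]
    · by_cases h2 : k = j
      · subst h2
        rw [Equiv.swap_apply_right, if_neg h1, if_pos rfl, if_pos (Or.inr rfl), one_mul]
      · rw [Equiv.swap_apply_of_ne_of_ne h1 h2, if_neg h1, if_neg (by tauto), mul_one]
  rw [← h]
  exact Subgroup.commutator_mem_commutator (Subgroup.mem_top _) (Subgroup.mem_top _)

/-- commutators of permutation matrices lie in the derived subgroup -/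
lemma pm_comm_mem (σ τ : Equiv.Perm (Fin n)) : pm ⁅σ, τ⁆ ∈ Om n := by
  have h : pm ⁅σ, τ⁆ = ⁅pm τ⁻¹, pm σ⁻¹⁆ := by
    rw [commutatorElement_def, commutatorElement_def, pm_inv, pm_inv, inv_inv, inv_inv]
    apply ext_mulVec
    intro v k
    rw [coe_mul', coe_mul', coe_mul', ← Matrix.mulVec_mulVec, ← Matrix.mulVec_mulVec,
      ← Matrix.mulVec_mulVec, pm_mulVec, pm_mulVec, pm_mulVec, pm_mulVec, pm_mulVec]
    rfl
  rw [h]
  exact Subgroup.commutator_mem_commutator (Subgroup.mem_top _) (Subgroup.mem_top _)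

/-! ### the centre -/

lemma center_scalar (hn : 3 ≤ n) (z : Om n) (hz : z ∈ Subgroup.center (Om n)) :
    ∃ c : ZMod 3, (c = 1 ∨ c = -1) ∧ ∀ v : Fin n → ZMod 3,
      ((z : Or n) : Matrix (Fin n) (Fin n) (ZMod 3)).mulVec v = c • v := by
  set Z : Matrix (Fin n) (Fin n) (ZMod 3) := ((z : Or n) : Matrix (Fin n) (Fin n) (ZMod 3)) with hZ
  have hcomm : ∀ k : Om n, ∀ v, Z.mulVec (((k : Or n) : Matrix (Fin n) (Fin n) (ZMod 3)).mulVec v) =
      ((k : Or n) : Matrix (Fin n) (Fin n) (ZMod 3)).mulVec (Z.mulVec v) := by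
    intro k v
    have h1 := Subgroup.mem_center_iff.1 hz k
    have h2 : ((k : Or n) : Matrix (Fin n) (Fin n) (ZMod 3)) * Z =
        Z * ((k : Or n) : Matrix (Fin n) (Fin n) (ZMod 3)) :=
      congrArg (fun g : Om n => ((g : Or n) : Matrix (Fin n) (Fin n) (ZMod 3))) h1
    rw [Matrix.mulVec_mulVec, Matrix.mulVec_mulVec, h2]
  -- the matrix is diagonal
  have hdiag : ∀ a b : Fin n, a ≠ b → Z.mulVec (Pi.single b 1) a = 0 := by
    intro a b hab
    obtain ⟨c, hca, hcb⟩ : ∃ c : Fin n, c ≠ a ∧ c ≠ b := by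
      have h3 : ({a, b} : Finset (Fin n)).card < (Finset.univ : Finset (Fin n)).card := by
        rw [Finset.card_univ, Fintype.card_fin]
        exact lt_of_le_of_lt Finset.card_le_two (by omega)
      obtain ⟨c, _, hc⟩ := Finset.exists_mem_notMem_of_card_lt_card h3
      simp only [Finset.mem_insert, Finset.mem_singleton, not_or] at hc
      exact ⟨c, hc.1, hc.2⟩
    have h4 := congrFun (hcomm ⟨_, sd_pair_mem hca.symm⟩ (Pi.single b 1)) a
    have h5 : ((sd {a, c} : Or n) : Matrix (Fin n) (Fin n) (ZMod 3)).mulVec (Pi.single b 1) =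
        Pi.single b 1 := by
      ext1 k
      rw [sd_mulVec]
      by_cases hk : k = b
      · subst hk
        rw [sgn, if_neg, one_mul]
        simp only [Finset.mem_insert, Finset.mem_singleton, not_or]
        exact ⟨hab.symm, hcb.symm⟩
      · rw [Pi.single_eq_of_ne hk, mul_zero]
    have h6 : sgn ({a, c} : Finset (Fin n)) a = -1 := by rw [sgn, if_pos]; simp
    have h7 : Z.mulVec (Pi.single b 1) a = -1 * Z.mulVec (Pi.single b 1) a := by
      calc Z.mulVec (Pi.single b 1) a
          = Z.mulVec (((sd {a, c} : Or n) : Matrix (Fin n) (Fin n) (ZMod 3)).mulVec (Pi.single b 1)) a := by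
            rw [h5]
        _ = ((sd {a, c} : Or n) : Matrix (Fin n) (Fin n) (ZMod 3)).mulVec (Z.mulVec (Pi.single b 1)) a := h4
        _ = _ := by rw [sd_mulVec, h6]
    revert h7
    generalize Z.mulVec (Pi.single b 1) a = y
    revert y; decide
  -- the diagonal entries agree
  have heq : ∀ a b : Fin n, Z.mulVec (Pi.single a 1) a = Z.mulVec (Pi.single b 1) b := by
    intro a b
    by_cases hab : a = b
    · rw [hab]
    obtain ⟨c, hca, hcb⟩ : ∃ c : Fin n, c ≠ a ∧ c ≠ b := by
      have h3 : ({a, b} : Finset (Fin n)).card < (Finset.univ : Finset (Fin n)).card := by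
        rw [Finset.card_univ, Fintype.card_fin]
        exact lt_of_le_of_lt Finset.card_le_two (by omega)
      obtain ⟨c, _, hc⟩ := Finset.exists_mem_notMem_of_card_lt_card h3
      simp only [Finset.mem_insert, Finset.mem_singleton, not_or] at hc
      exact ⟨c, hc.1, hc.2⟩
    -- a commutator sending `b` to `a`
    have h8 : ∃ σ τ : Equiv.Perm (Fin n), ⁅σ, τ⁆ b = a := by
      refine ⟨Equiv.swap a c, Equiv.swap a b, ?_⟩
      rw [commutatorElement_def, Equiv.swap_inv, Equiv.swap_inv]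
      simp only [Equiv.Perm.mul_apply]
      rw [Equiv.swap_apply_right, Equiv.swap_apply_left, Equiv.swap_apply_of_ne_of_ne hca hcb,
        Equiv.swap_apply_right]
    obtain ⟨σ, τ, hst⟩ := h8
    have h9 := congrFun (hcomm ⟨_, pm_comm_mem σ τ⟩ (Pi.single a 1)) b
    have h10 : ((pm ⁅σ, τ⁆ : Or n) : Matrix (Fin n) (Fin n) (ZMod 3)).mulVec (Pi.single a 1) =
        Pi.single b 1 := by
      ext1 k
      rw [pm_mulVec]
      by_cases hk : k = b
      · subst hk
        rw [hst, Pi.single_eq_same, Pi.single_eq_same]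
      · rw [Pi.single_eq_of_ne hk, Pi.single_eq_of_ne]
        rw [← hst]
        exact fun h => hk ((⁅σ, τ⁆ : Equiv.Perm (Fin n)).injective h)
    symm
    calc Z.mulVec (Pi.single b 1) b
        = Z.mulVec (((pm ⁅σ, τ⁆ : Or n) : Matrix (Fin n) (Fin n) (ZMod 3)).mulVec (Pi.single a 1)) b := by
          rw [h10]
      _ = ((pm ⁅σ, τ⁆ : Or n) : Matrix (Fin n) (Fin n) (ZMod 3)).mulVec (Z.mulVec (Pi.single a 1)) b := h9
      _ = _ := by rw [pm_mulVec, hst]
  have : NeZero n := ⟨by omega⟩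
  set c := Z.mulVec (Pi.single 0 1) 0 with hc
  have hent : ∀ a b : Fin n, Z a b = if a = b then c else 0 := by
    intro a b
    have h11 : Z a b = Z.mulVec (Pi.single b 1) a := by
      rw [Matrix.mulVec_single_one]; rfl
    rw [h11]
    split_ifs with h
    · subst h; exact heq a 0
    · exact hdiag a b h
  have hscal : Z = Matrix.diagonal fun _ => c := by
    ext a b
    rw [hent, Matrix.diagonal_apply]
  have hact : ∀ v : Fin n → ZMod 3, Z.mulVec v = c • v := by
    intro v
    ext1 i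
    rw [hscal, Matrix.mulVec_diagonal]; rfl
  refine ⟨c, ?_, hact⟩
  have h12 : Z * Z.transpose = 1 := by
    exact (Matrix.mem_orthogonalGroup_iff _ _).1 (z : Or n).2
  rw [hscal, Matrix.diagonal_transpose, Matrix.diagonal_mul_diagonal] at h12
  have h14 := congrFun (congrFun h12 0) 0
  rw [Matrix.diagonal_apply_eq, Matrix.one_apply_eq] at h14
  revert h14
  generalize c = y
  revert y; decide

/-! ### the norm -/

lemma dot_eq (k : Or n) (v : Fin n → ZMod 3) :
    ((k : Matrix (Fin n) (Fin n) (ZMod 3)).mulVec v) ⬝ᵥ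
      ((k : Matrix (Fin n) (Fin n) (ZMod 3)).mulVec v) = v ⬝ᵥ v := by
  have h : (k : Matrix (Fin n) (Fin n) (ZMod 3)).transpose * (k : Matrix (Fin n) (Fin n) (ZMod 3)) = 1 := by
    exact (Matrix.mem_orthogonalGroup_iff' _ _).1 k.2
  rw [← Matrix.vecMul_transpose, ← Matrix.dotProduct_mulVec, Matrix.vecMul_transpose,
    Matrix.mulVec_mulVec, h, Matrix.one_mulVec]

lemma dot_card (v : Fin n → ZMod 3) : v ⬝ᵥ v = ((Finset.univ.filter fun i => v i ≠ 0).card : ZMod 3) := by
  rw [dotProduct, Finset.card_eq_sum_ones, Nat.cast_sum, Finset.sum_filter]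
  refine Finset.sum_congr rfl fun i _ => ?_
  by_cases h : v i = 0
  · rw [if_neg (not_not.2 h), h, mul_zero]
  · rw [if_pos h, ← pow_two, sq_one _ h]; norm_num

/-- a vector of norm `n + 1` has two zero coordinates -/
lemma two_zeros (v : Fin n → ZMod 3) (h : v ⬝ᵥ v = (n : ZMod 3) + 1) :
    ∃ i j, i ≠ j ∧ v i = 0 ∧ v j = 0 := by
  rw [dot_card] at h
  have hc : (Finset.univ.filter fun i => v i ≠ 0).card + (Finset.univ.filter fun i => ¬ v i ≠ 0).card = n := by
    rw [Finset.card_filter_add_card_filter_not, Finset.card_univ, Fintype.card_fin]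
  have h2 : 2 ≤ (Finset.univ.filter fun i => ¬ v i ≠ 0).card := by
    by_contra hlt
    have h3 : (Finset.univ.filter fun i => ¬ v i ≠ 0).card = 0 ∨
        (Finset.univ.filter fun i => ¬ v i ≠ 0).card = 1 := by omega
    rcases h3 with h3 | h3
    · rw [h3, add_zero] at hc
      rw [hc] at h
      have : (1 : ZMod 3) = 0 := by
        calc (1 : ZMod 3) = (n : ZMod 3) + 1 - n := by ring
          _ = 0 := by rw [← h]; ring
      exact absurd this (by decide)
    · rw [h3] at hc
      have h4 : (n : ZMod 3) = ((Finset.univ.filter fun i => v i ≠ 0).card : ZMod 3) + 1 := by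
        rw [← Nat.cast_one, ← Nat.cast_add, hc]
      have : (2 : ZMod 3) = 0 := by
        calc (2 : ZMod 3) = (n : ZMod 3) + 1 - (n - 1) := by ring
          _ = 0 := by rw [← h, h4]; ring
      exact absurd this (by decide)
  obtain ⟨i, hi, j, hj, hij⟩ := Finset.one_lt_card.1 h2
  simp only [Finset.mem_filter, not_not] at hi hj
  exact ⟨i, j, hij, hi.2, hj.2⟩

/-! ### the subgroups -/

/-- the diagonal matrices in the derived subgroup -/
def A0 (n : ℕ) : Subgroup (Om n) where
  carrier := {k | ∃ e : Fin n → ZMod 3, (∀ i, e i * e i = 1) ∧ ∀ v i,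
    ((k : Or n) : Matrix (Fin n) (Fin n) (ZMod 3)).mulVec v i = e i * v i}
  one_mem' := ⟨fun _ => 1, fun _ => one_mul 1, fun v i => by
    show (1 : Matrix (Fin n) (Fin n) (ZMod 3)).mulVec v i = 1 * v i
    rw [Matrix.one_mulVec, one_mul]⟩
  mul_mem' := by
    rintro a b ⟨e, he, ha⟩ ⟨f, hf, hb⟩
    refine ⟨fun i => e i * f i, fun i => ?_, fun v i => ?_⟩
    · rw [mul_mul_mul_comm, he, hf, one_mul]
    · show (((a : Or n) : Matrix (Fin n) (Fin n) (ZMod 3)) * ((b : Or n) : Matrix (Fin n) (Fin n) (ZMod 3))).mulVec v i = _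
      rw [← Matrix.mulVec_mulVec, ha, hb, mul_assoc]
  inv_mem' := by
    rintro a ⟨e, he, ha⟩
    refine ⟨e, he, fun v i => ?_⟩
    have h1 : ((a : Or n) : Matrix (Fin n) (Fin n) (ZMod 3)) * (((a⁻¹ : Om n) : Or n) : Matrix (Fin n) (Fin n) (ZMod 3)) = 1 :=
      congrArg (fun g : Om n => ((g : Or n) : Matrix (Fin n) (Fin n) (ZMod 3))) (mul_inv_cancel a)
    have h2 := ha ((((a⁻¹ : Om n) : Or n) : Matrix (Fin n) (Fin n) (ZMod 3)).mulVec v) i
    rw [Matrix.mulVec_mulVec, h1, Matrix.one_mulVec] at h2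
    rw [h2, ← mul_assoc, he, one_mul]

lemma A0_comm (a b : Om n) (ha : a ∈ A0 n) (hb : b ∈ A0 n) : a * b = b * a := by
  obtain ⟨e, he, ha⟩ := ha
  obtain ⟨f, hf, hb⟩ := hb
  apply Subtype.ext
  apply ext_mulVec
  intro v i
  show (((a : Or n) : Matrix (Fin n) (Fin n) (ZMod 3)) * ((b : Or n) : Matrix (Fin n) (Fin n) (ZMod 3))).mulVec v i =
    (((b : Or n) : Matrix (Fin n) (Fin n) (ZMod 3)) * ((a : Or n) : Matrix (Fin n) (Fin n) (ZMod 3))).mulVec v i
  rw [← Matrix.mulVec_mulVec, ← Matrix.mulVec_mulVec, ha, hb, hb, ha, mul_left_comm]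

lemma A0_sq (a : Om n) (ha : a ∈ A0 n) : a ^ 2 = 1 := by
  obtain ⟨e, he, ha⟩ := ha
  rw [pow_two]
  apply Subtype.ext
  apply ext_mulVec
  intro v i
  show (((a : Or n) : Matrix (Fin n) (Fin n) (ZMod 3)) * ((a : Or n) : Matrix (Fin n) (Fin n) (ZMod 3))).mulVec v i =
    (1 : Matrix (Fin n) (Fin n) (ZMod 3)).mulVec v i
  rw [← Matrix.mulVec_mulVec, ha, ha, ← mul_assoc, he, one_mul, Matrix.one_mulVec]

/-- the stabiliser of `{v, -v}` -/
def H0 (v : Fin n → ZMod 3) : Subgroup (Om n) where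
  carrier := {k | ∃ c : ZMod 3, c * c = 1 ∧
    ((k : Or n) : Matrix (Fin n) (Fin n) (ZMod 3)).mulVec v = c • v}
  one_mem' := ⟨1, one_mul 1, by
    show (1 : Matrix (Fin n) (Fin n) (ZMod 3)).mulVec v = _
    rw [Matrix.one_mulVec, one_smul]⟩
  mul_mem' := by
    rintro a b ⟨c, hc, ha⟩ ⟨d, hd, hb⟩
    refine ⟨c * d, by rw [mul_mul_mul_comm, hc, hd, one_mul], ?_⟩
    show (((a : Or n) : Matrix (Fin n) (Fin n) (ZMod 3)) * ((b : Or n) : Matrix (Fin n) (Fin n) (ZMod 3))).mulVec v = _
    rw [← Matrix.mulVec_mulVec, hb, Matrix.mulVec_smul, ha, smul_smul, mul_comm]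
  inv_mem' := by
    rintro a ⟨c, hc, ha⟩
    refine ⟨c, hc, ?_⟩
    have h1 : (((a⁻¹ : Om n) : Or n) : Matrix (Fin n) (Fin n) (ZMod 3)) * ((a : Or n) : Matrix (Fin n) (Fin n) (ZMod 3)) = 1 :=
      congrArg (fun g : Om n => ((g : Or n) : Matrix (Fin n) (Fin n) (ZMod 3))) (inv_mul_cancel a)
    have h2 : v = c • ((a : Or n) : Matrix (Fin n) (Fin n) (ZMod 3)).mulVec v := by
      rw [ha, smul_smul, hc, one_smul]
    conv_lhs => rw [h2]
    rw [Matrix.mulVec_smul, Matrix.mulVec_mulVec, h1, Matrix.one_mulVec]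

/-- **Theorem.**  For `n ≥ 5` let `Ω` be the derived subgroup of the orthogonal group of the form
`x₁² + ⋯ + xₙ²` over the field with three elements.  The simple group `PΩ = Ω / Z(Ω)` does not have
property `(∗)` in characteristic three. -/
theorem result (n : ℕ) (hn : 5 ≤ n) :
    ¬ HasStar 3 (commutator (Matrix.orthogonalGroup (Fin n) (ZMod 3)) ⧸
      Subgroup.center (commutator (Matrix.orthogonalGroup (Fin n) (ZMod 3)))) := by
  have : NeZero n := ⟨by omega⟩
  let π := QuotientGroup.mk' (Subgroup.center (Om n))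
  have hfin : Finite (Om n ⧸ Subgroup.center (Om n)) := by
    have : Finite (Or n) := inferInstance
    infer_instance
  -- the vector
  let v0 : Fin n → ZMod 3 := fun i => if i.val < n - 2 then 1 else 0
  have hv0 : v0 ⬝ᵥ v0 = (n : ZMod 3) + 1 := by
    have h1 : v0 ⬝ᵥ v0 = ((n - 2 : ℕ) : ZMod 3) := by
      rw [dot_card]
      congr 1
      have h2 : (Finset.univ.filter fun i => v0 i ≠ 0) =
          Finset.univ.filter fun i : Fin n => i.val < n - 2 := by
        apply Finset.filter_congr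
        intro i _
        show (if i.val < n - 2 then (1 : ZMod 3) else 0) ≠ 0 ↔ _
        split_ifs with h
        · simp [h]
        · simp [h]
      rw [h2, Fin.card_filter_val_lt]
      omega
    rw [h1]
    have h2 : (n : ZMod 3) = ((n - 2 : ℕ) : ZMod 3) + 2 := by
      conv_lhs => rw [show n = (n - 2) + 2 by omega]
      rw [Nat.cast_add]; rfl
    rw [h2, add_assoc]
    have h3 : (2 : ZMod 3) + 1 = 0 := by decide
    rw [h3, add_zero]
  refine not_hasStar ((A0 n).map π) ?_ ?_ ((H0 v0).map π) ?_ ?_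
  · rintro _ ⟨a, ha, rfl⟩ _ ⟨b, hb, rfl⟩
    rw [← map_mul, ← map_mul, A0_comm a b ha hb]
  · refine coprime_card (k := 2) Nat.prime_three (by norm_num) _ ?_
    rintro _ ⟨a, ha, rfl⟩
    rw [← map_pow, A0_sq a ha, map_one]
  · intro htop
    -- the sign change at `0` and `n - 1` moves `v0`
    let last : Fin n := ⟨n - 1, by omega⟩
    have h0l : (0 : Fin n) ≠ last := by
      intro h
      have := congrArg Fin.val h
      simp [last] at this
      omega
    have h1 : π ⟨_, sd_pair_mem h0l⟩ ∈ (H0 v0).map π := by rw [htop]; trivial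
    obtain ⟨k, ⟨c, hc, hk⟩, hk2⟩ := h1
    have h2 : (⟨_, sd_pair_mem h0l⟩ : Om n)⁻¹ * k ∈ Subgroup.center (Om n) := by
      rw [← QuotientGroup.eq]
      exact hk2.symm
    obtain ⟨d, hd, hact⟩ := center_scalar (by omega) _ h2
    -- `sd v0 = c d v0`
    have h3 : ((sd {0, last} : Or n) : Matrix (Fin n) (Fin n) (ZMod 3)).mulVec (d • v0) = c • v0 := by
      rw [← hact v0, ← hk]
      show ((sd {0, last} : Or n) : Matrix (Fin n) (Fin n) (ZMod 3)).mulVec
        (((((⟨_, sd_pair_mem h0l⟩ : Om n)⁻¹ * k : Om n) : Or n) : Matrix (Fin n) (Fin n) (ZMod 3)).mulVec v0) = _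
      rw [Matrix.mulVec_mulVec]
      congr 1
      exact congrArg (fun g : Om n => ((g : Or n) : Matrix (Fin n) (Fin n) (ZMod 3)))
        (mul_inv_cancel_left (⟨_, sd_pair_mem h0l⟩ : Om n) k)
    have h4 := congrFun h3 0
    have h5 := congrFun h3 ⟨1, by omega⟩
    rw [sd_mulVec] at h4 h5
    have e0 : v0 0 = 1 := by
      show (if (0 : Fin n).val < n - 2 then (1 : ZMod 3) else 0) = 1
      rw [if_pos]
      simp
      omega
    have e1 : v0 ⟨1, by omega⟩ = 1 := by
      show (if 1 < n - 2 then (1 : ZMod 3) else 0) = 1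
      rw [if_pos (by omega)]
    have s0 : sgn ({0, last} : Finset (Fin n)) 0 = -1 := by rw [sgn, if_pos]; simp
    have s1 : sgn ({0, last} : Finset (Fin n)) ⟨1, by omega⟩ = 1 := by
      rw [sgn, if_neg]
      simp only [Finset.mem_insert, Finset.mem_singleton, not_or]
      constructor
      · intro h
        have := congrArg Fin.val h
        simp at this
      · intro h
        have := congrArg Fin.val h
        simp [last] at this
        omega
    rw [s0, Pi.smul_apply, Pi.smul_apply, e0, smul_eq_mul, smul_eq_mul] at h4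
    rw [s1, Pi.smul_apply, Pi.smul_apply, e1, smul_eq_mul, smul_eq_mul] at h5
    have h6 : -1 * (d * 1) = 1 * (d * 1) := h4.trans h5.symm
    rcases hd with rfl | rfl
    · exact absurd h6 (by decide)
    · exact absurd h6 (by decide)
  · intro x
    obtain ⟨k, rfl⟩ := QuotientGroup.mk'_surjective _ x
    set u := ((k : Or n) : Matrix (Fin n) (Fin n) (ZMod 3)).mulVec v0 with hu
    have hnorm : u ⬝ᵥ u = (n : ZMod 3) + 1 := by rw [hu, dot_eq, hv0]
    obtain ⟨i, j, hij, hi, hj⟩ := two_zeros u hnorm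
    have hsu : ((sd {i, j} : Or n) : Matrix (Fin n) (Fin n) (ZMod 3)).mulVec u = u := by
      ext1 l
      rw [sd_mulVec]
      by_cases hl : l ∈ ({i, j} : Finset (Fin n))
      · have : u l = 0 := by
          simp only [Finset.mem_insert, Finset.mem_singleton] at hl
          rcases hl with rfl | rfl
          · exact hi
          · exact hj
        rw [this, mul_zero]
      · rw [sgn, if_neg hl, one_mul]
    refine ⟨π ⟨_, sd_pair_mem hij⟩, ⟨_, ⟨sgn {i, j}, sgn_sq _, fun v l => sd_mulVec _ v l⟩, rfl⟩,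
      ?_, ?_⟩
    · intro h1
      have h2 : (⟨_, sd_pair_mem hij⟩ : Om n) ∈ Subgroup.center (Om n) :=
        (QuotientGroup.eq_one_iff _).1 h1
      obtain ⟨c, _, hact⟩ := center_scalar (by omega) _ h2
      obtain ⟨l, hl⟩ : ∃ l : Fin n, l ∉ ({i, j} : Finset (Fin n)) := by
        have h3 : ({i, j} : Finset (Fin n)).card < (Finset.univ : Finset (Fin n)).card := by
          rw [Finset.card_univ, Fintype.card_fin]
          exact lt_of_le_of_lt Finset.card_le_two (by omega)
        obtain ⟨c, _, hc⟩ := Finset.exists_mem_notMem_of_card_lt_card h3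
        exact ⟨c, hc⟩
      have h4 := congrFun (hact (fun _ => 1)) i
      have h5 := congrFun (hact (fun _ => 1)) l
      have h4' : sgn ({i, j} : Finset (Fin n)) i * 1 = c * 1 := by
        rw [← sd_mulVec _ (fun _ => 1)]; exact h4
      have h5' : sgn ({i, j} : Finset (Fin n)) l * 1 = c * 1 := by
        rw [← sd_mulVec _ (fun _ => 1)]; exact h5
      have h6 := h4'.trans h5'.symm
      rw [sgn, sgn, if_pos (by simp), if_neg hl] at h6
      exact absurd h6 (by decide)
    · refine ⟨k⁻¹ * ⟨_, sd_pair_mem hij⟩ * k, ⟨1, one_mul 1, ?_⟩, ?_⟩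
      · rw [one_smul]
        have h1 : (((k⁻¹ : Om n) : Or n) : Matrix (Fin n) (Fin n) (ZMod 3)) * ((k : Or n) : Matrix (Fin n) (Fin n) (ZMod 3)) = 1 :=
          congrArg (fun g : Om n => ((g : Or n) : Matrix (Fin n) (Fin n) (ZMod 3))) (inv_mul_cancel k)
        show ((((k⁻¹ : Om n) : Or n) : Matrix (Fin n) (Fin n) (ZMod 3)) *
          ((sd {i, j} : Or n) : Matrix (Fin n) (Fin n) (ZMod 3)) *
          ((k : Or n) : Matrix (Fin n) (Fin n) (ZMod 3))).mulVec v0 = v0
        rw [← Matrix.mulVec_mulVec, ← hu, ← Matrix.mulVec_mulVec, hsu, hu, Matrix.mulVec_mulVec, h1,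
          Matrix.one_mulVec]
      · rw [map_mul, map_mul, map_inv]

end Pool.Agent.Results.MP_1b60fb_al.OrthogonalThree
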