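import Mathlib
import Pool.Agent.R682.Star

/-!
# The symplectic groups over the field with two elements do not have property `(∗)`
-/

set_option autoImplicit false

open Pool.Agent.R682
open scoped commutatorElement

namespace Pool.Agent.Results.MP_1b60fb_al.SymplecticTwo

/-- The plane `𝔽₂²`. -/
abbrev P := ZMod 2 × ZMod 2

/-- The space `V = 𝔽₂^{2n}`, written as a sum of `n` planes. -/
abbrev V (n : ℕ) := Fin n → P

/-- The standard nondegenerate alternating form on `V`. -/
def form {n : ℕ} (v w : V n) : ZMod 2 := ∑ i, ((v i).1 * (w i).2 + (v i).2 * (w i).1)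

/-- All invertible linear maps of `V` preserving `form`. -/
def Sp (n : ℕ) : Subgroup (V n ≃ₗ[ZMod 2] V n) where
  carrier := {g | ∀ v w, form (g v) (g w) = form v w}
  one_mem' := fun _ _ => rfl
  mul_mem' := by
    intro a b ha hb v w
    exact (ha (b v) (b w)).trans (hb v w)
  inv_mem' := by
    intro a ha v w
    have h := ha (a⁻¹ v) (a⁻¹ w)
    have e : ∀ x, a (a⁻¹ x) = x := fun x => LinearEquiv.apply_symm_apply a x
    rw [e, e] at h
    exact h.symm

/-! ### quadratic forms polarizing to `form` -/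

section quad

variable {n : ℕ}

def IsQuad (q : V n → ZMod 2) : Prop := ∀ v w, q (v + w) = q v + q w + form v w

lemma form_sum_right {ι : Type} (s : Finset ι) (f : ι → V n) (v : V n) :
    form v (∑ i ∈ s, f i) = ∑ i ∈ s, form v (f i) := by
  classical
  induction s using Finset.induction_on with
  | empty => simp [form]
  | insert a s ha ih =>
    rw [Finset.sum_insert ha, Finset.sum_insert ha, ← ih, form, form, form, ← Finset.sum_add_distrib]
    refine Finset.sum_congr rfl fun i _ => ?_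
    simp only [Pi.add_apply, Prod.fst_add, Prod.snd_add]
    ring

lemma form_single {i j : Fin n} (hij : i ≠ j) (p r : P) :
    form (Pi.single i p : V n) (Pi.single j r) = 0 := by
  rw [form]
  refine Finset.sum_eq_zero fun k _ => ?_
  by_cases hk : k = i
  · subst hk
    rw [Pi.single_eq_of_ne hij]
    simp
  · rw [Pi.single_eq_of_ne hk]
    simp

lemma IsQuad.zero {q : V n → ZMod 2} (hq : IsQuad q) : q 0 = 0 := by
  have h := hq 0 0
  have h0 : form (0 : V n) 0 = 0 := by simp [form]
  rw [add_zero, h0, add_zero] at h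
  exact (add_eq_left.1 h.symm)

lemma IsQuad.sum {q : V n → ZMod 2} (hq : IsQuad q) (v : V n) (s : Finset (Fin n)) :
    q (∑ i ∈ s, Pi.single i (v i)) = ∑ i ∈ s, q (Pi.single i (v i)) := by
  induction s using Finset.induction_on with
  | empty => simp [hq.zero]
  | insert a s ha ih =>
    have h0 : ∑ i ∈ s, form (Pi.single a (v a) : V n) (Pi.single i (v i)) = 0 := by
      refine Finset.sum_eq_zero fun i hi => ?_
      apply form_single
      rintro rfl
      exact ha hi
    rw [Finset.sum_insert ha, Finset.sum_insert ha, hq, ih, form_sum_right, h0, add_zero]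

lemma IsQuad.eq_sum {q : V n → ZMod 2} (hq : IsQuad q) (v : V n) :
    q v = ∑ i, q (Pi.single i (v i)) := by
  rw [← hq.sum v Finset.univ, Finset.univ_sum_single]

/-- the sign character -/
def chi (a : ZMod 2) : ℤ := if a = 0 then 1 else -1

lemma chi_add : ∀ a b : ZMod 2, chi (a + b) = chi a * chi b := by decide

lemma chi_sum {ι : Type} (s : Finset ι) (f : ι → ZMod 2) : chi (∑ i ∈ s, f i) = ∏ i ∈ s, chi (f i) := by
  classical
  induction s using Finset.induction_on with
  | empty => simp [chi]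
  | insert a s ha ih => rw [Finset.sum_insert ha, Finset.prod_insert ha, chi_add, ih]

lemma IsQuad.charSum {q : V n → ZMod 2} (hq : IsQuad q) :
    ∑ v : V n, chi (q v) = ∏ i, ∑ p : P, chi (q (Pi.single i p)) := by
  rw [Finset.prod_univ_sum, Fintype.piFinset_univ]
  refine Finset.sum_congr rfl fun v _ => ?_
  rw [hq.eq_sum v, chi_sum]

lemma form_single_same (i : Fin n) (p r : P) :
    form (Pi.single i p : V n) (Pi.single i r) = p.1 * r.2 + p.2 * r.1 := by
  rw [form, Finset.sum_eq_single i]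
  · simp
  · intro j _ hj
    rw [Pi.single_eq_of_ne hj]
    simp
  · intro h; exact absurd (Finset.mem_univ i) h

lemma IsQuad.one_one {q : V n → ZMod 2} (hq : IsQuad q) (i : Fin n) :
    q (Pi.single i (1, 1)) = q (Pi.single i (1, 0)) + q (Pi.single i (0, 1)) + 1 := by
  have h : (Pi.single i ((1, 1) : P) : V n) = Pi.single i (1, 0) + Pi.single i (0, 1) := by
    rw [← Pi.single_add]; rfl
  rw [h, hq, form_single_same]
  simp

lemma sumP (f : P → ℤ) : ∑ p : P, f p = f (0, 0) + f (1, 0) + f (0, 1) + f (1, 1) := by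
  rw [Fintype.sum_prod_type]
  have h2 : ∀ g : ZMod 2 → ℤ, ∑ a : ZMod 2, g a = g 0 + g 1 := fun g => Fin.sum_univ_two g
  rw [h2, h2, h2]
  ring

lemma plane_key : ∀ a b : ZMod 2, chi 0 + chi a + chi b + chi (a + b + 1) =
    if a = 1 ∧ b = 1 then -2 else 2 := by decide

lemma IsQuad.plane {q : V n → ZMod 2} (hq : IsQuad q) (i : Fin n) :
    ∑ p : P, chi (q (Pi.single i p)) =
      if q (Pi.single i (1, 0)) = 1 ∧ q (Pi.single i (0, 1)) = 1 then -2 else 2 := by
  rw [sumP, hq.one_one, ← plane_key]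
  have h : (Pi.single i ((0, 0) : P) : V n) = 0 := Pi.single_zero i
  rw [h, hq.zero]

/-- if the character sum is negative, then some plane is anisotropic -/
lemma IsQuad.exists_plane {q : V n → ZMod 2} (hq : IsQuad q) (hneg : ∑ v : V n, chi (q v) < 0) :
    ∃ i, q (Pi.single i (1, 0)) = 1 ∧ q (Pi.single i (0, 1)) = 1 := by
  by_contra hcon
  push Not at hcon
  rw [hq.charSum] at hneg
  have : ∏ i, ∑ p : P, chi (q (Pi.single i p)) = ∏ _i : Fin n, (2 : ℤ) := by
    refine Finset.prod_congr rfl fun i _ => ?_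
    rw [hq.plane, if_neg]
    intro h
    exact hcon i h.1 h.2
  rw [this] at hneg
  have h2 : (0 : ℤ) < ∏ _i : Fin n, (2 : ℤ) := Finset.prod_pos fun _ _ => by norm_num
  exact absurd hneg (not_lt.2 h2.le)

end quad

/-! ### the abelian subgroup -/

/-- the rotation of order three of the plane -/
def rot : P ≃ₗ[ZMod 2] P where
  toFun := fun p => (p.2, p.1 + p.2)
  invFun := fun p => (p.1 + p.2, p.1)
  map_add' := by decide
  map_smul' := by decide
  left_inv := by intro p; revert p; decide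
  right_inv := by intro p; revert p; decide

lemma rot_cube : rot ^ 3 = 1 := by
  ext p <;> revert p <;> decide

variable {n : ℕ}

/-- componentwise action -/
def diag : (Fin n → Subgroup.zpowers rot) →* (V n ≃ₗ[ZMod 2] V n) where
  toFun := fun s => LinearEquiv.piCongrRight fun i => (s i : P ≃ₗ[ZMod 2] P)
  map_one' := by ext1 v; rfl
  map_mul' := by intro s t; ext1 v; rfl

lemma diag_apply (s : Fin n → Subgroup.zpowers rot) (v : V n) (i : Fin n) :
    diag s v i = (s i : P ≃ₗ[ZMod 2] P) (v i) := rfl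

lemma zpow_cube (r : Subgroup.zpowers rot) : r ^ 3 = 1 := by
  obtain ⟨r, k, rfl⟩ := r
  apply Subtype.ext
  show (rot ^ k) ^ 3 = 1
  rw [← zpow_natCast, ← zpow_mul, mul_comm, zpow_mul, zpow_natCast, rot_cube, one_zpow]

lemma rot_form (p r : P) : (rot p).1 * (rot r).2 + (rot p).2 * (rot r).1 =
    p.1 * r.2 + p.2 * r.1 := by
  revert p r; decide

lemma zpow_form (s : Subgroup.zpowers rot) (p r : P) :
    ((s : P ≃ₗ[ZMod 2] P) p).1 * ((s : P ≃ₗ[ZMod 2] P) r).2 +
      ((s : P ≃ₗ[ZMod 2] P) p).2 * ((s : P ≃ₗ[ZMod 2] P) r).1 = p.1 * r.2 + p.2 * r.1 := by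
  -- `s` is `1`, `rot` or `rot ^ 2`
  obtain ⟨s, hs⟩ := s
  have hfin : IsOfFinOrder rot := isOfFinOrder_iff_pow_eq_one.2 ⟨3, by norm_num, rot_cube⟩
  rw [← hfin.mem_powers_iff_mem_zpowers] at hs
  obtain ⟨k, hk⟩ := hs
  simp only at hk
  show (s p).1 * (s r).2 + (s p).2 * (s r).1 = _
  rw [← hk]
  clear hk
  induction k generalizing p r with
  | zero => rfl
  | succ k ih =>
    rw [pow_succ]
    exact (ih (rot p) (rot r)).trans (rot_form p r)

lemma diag_mem_Sp (s : Fin n → Subgroup.zpowers rot) : diag s ∈ Sp n := by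
  intro v w
  rw [form, form]
  exact Finset.sum_congr rfl fun i _ => zpow_form (s i) (v i) (w i)

/-- the rotation in the `i`-th plane -/
def rotAt (i : Fin n) : Fin n → Subgroup.zpowers rot :=
  Function.update 1 i ⟨rot, Subgroup.mem_zpowers rot⟩

lemma diag_rotAt_fix {q : V n → ZMod 2} (hq : IsQuad q) {i : Fin n}
    (h1 : q (Pi.single i (1, 0)) = 1) (h2 : q (Pi.single i (0, 1)) = 1) (v : V n) :
    q (diag (rotAt i) v) = q v := by
  rw [hq.eq_sum v, hq.eq_sum (diag (rotAt i) v)]
  refine Finset.sum_congr rfl fun j _ => ?_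
  rw [diag_apply, rotAt]
  by_cases hj : j = i
  · subst hj
    rw [Function.update_self]
    have h3 : q (Pi.single j (1, 1)) = 1 := by rw [hq.one_one, h1, h2]; decide
    have h0 : q (Pi.single j (0, 0)) = 0 := by
      have h : (Pi.single j ((0, 0) : P) : V n) = 0 := Pi.single_zero j
      rw [h, hq.zero]
    have key : ∀ p : P, p = (0, 0) ∨ p = (1, 0) ∨ p = (0, 1) ∨ p = (1, 1) := by decide
    have r0 : rot (0, 0) = (0, 0) := by decide
    have r1 : rot (1, 0) = (0, 1) := by decide
    have r2 : rot (0, 1) = (1, 1) := by decide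
    have r3 : rot (1, 1) = (1, 0) := by decide
    show q (Pi.single j (rot (v j))) = q (Pi.single j (v j))
    rcases key (v j) with h | h | h | h
    · rw [h, r0]
    · rw [h, r1, h1, h2]
    · rw [h, r2, h2, h3]
    · rw [h, r3, h1, h3]
  · rw [Function.update_of_ne hj]
    rfl

lemma diag_rotAt_ne (i : Fin n) : (diag (rotAt i) : V n ≃ₗ[ZMod 2] V n) ≠ 1 := by
  intro h
  have h1 := congrFun (congrArg (fun g : V n ≃ₗ[ZMod 2] V n => g (Pi.single i (1, 0))) h) i
  simp only [diag_apply, rotAt, Function.update_self, Pi.single_eq_same] at h1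
  revert h1
  show rot (1, 0) = (Pi.single i (1, 0) : V n) i → False
  rw [Pi.single_eq_same]
  decide

/-! ### the quadratic form of minus type -/

/-- `x₀² + x₀ y₀ + y₀²` on the first plane plus `∑ xᵢ yᵢ` on the others. -/
def q0 (n : ℕ) [NeZero n] (v : V n) : ZMod 2 :=
  (v 0).1 ^ 2 + (v 0).2 ^ 2 + ∑ i, (v i).1 * (v i).2

lemma q0_isQuad (n : ℕ) [NeZero n] : IsQuad (q0 n) := by
  intro v w
  rw [q0, q0, q0, form]
  have h : ∑ i, ((v + w) i).1 * ((v + w) i).2 = ∑ i, (v i).1 * (v i).2 + ∑ i, (w i).1 * (w i).2 +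
      ∑ i, ((v i).1 * (w i).2 + (v i).2 * (w i).1) := by
    rw [← Finset.sum_add_distrib, ← Finset.sum_add_distrib]
    refine Finset.sum_congr rfl fun i _ => ?_
    simp only [Pi.add_apply, Prod.fst_add, Prod.snd_add]
    ring
  rw [h]
  have h2 : ∀ a b : ZMod 2, (a + b) ^ 2 = a ^ 2 + b ^ 2 := by decide
  simp only [Pi.add_apply, Prod.fst_add, Prod.snd_add, h2]
  ring

lemma q0_single (n : ℕ) [NeZero n] (i : Fin n) (p : P) :
    q0 n (Pi.single i p) = (if i = 0 then p.1 ^ 2 + p.2 ^ 2 else 0) + p.1 * p.2 := by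
  rw [q0, Finset.sum_eq_single i]
  · by_cases hi : i = 0
    · subst hi
      simp
    · rw [if_neg hi, Pi.single_eq_of_ne (Ne.symm hi)]
      simp
  · intro j _ hj
    rw [Pi.single_eq_of_ne hj]
    simp
  · intro h; exact absurd (Finset.mem_univ i) h

lemma q0_charSum (n : ℕ) [NeZero n] : ∑ v : V n, chi (q0 n v) < 0 := by
  rw [(q0_isQuad n).charSum, ← Finset.mul_prod_erase Finset.univ _ (Finset.mem_univ (0 : Fin n))]
  have h1 : ∑ p : P, chi (q0 n (Pi.single 0 p)) = -2 := by
    rw [(q0_isQuad n).plane, if_pos]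
    rw [q0_single, q0_single]
    simp
  have h2 : ∏ i ∈ Finset.univ.erase (0 : Fin n), ∑ p : P, chi (q0 n (Pi.single i p)) =
      ∏ i ∈ Finset.univ.erase (0 : Fin n), 2 := by
    refine Finset.prod_congr rfl fun i hi => ?_
    rw [(q0_isQuad n).plane, if_neg]
    rw [q0_single, q0_single, if_neg (Finset.ne_of_mem_erase hi)]
    simp
  rw [h1, h2]
  have h3 : (0 : ℤ) < ∏ i ∈ Finset.univ.erase (0 : Fin n), 2 := Finset.prod_pos fun _ _ => by norm_num
  linarith

/-! ### the main argument -/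

lemma charSum_comp (g : V n ≃ₗ[ZMod 2] V n) (q : V n → ZMod 2) :
    ∑ v : V n, chi (q (g v)) = ∑ v : V n, chi (q v) :=
  Equiv.sum_comp g.toEquiv (fun v => chi (q v))

theorem main (n : ℕ) (hn : 2 ≤ n) {K : Type} [Group K] (φ : K →* (V n ≃ₗ[ZMod 2] V n))
    (hinj : Function.Injective φ) (hSp : ∀ k, φ k ∈ Sp n)
    (hA : ∀ s : Fin n → Subgroup.zpowers rot, ∃ k, φ k = diag s) : ¬ HasStar 2 K := by
  have : NeZero n := ⟨by omega⟩
  have : Finite (V n ≃ₗ[ZMod 2] V n) :=
    Finite.of_injective (fun g : V n ≃ₗ[ZMod 2] V n => (g : V n → V n)) DFunLike.coe_injective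
  have : Finite K := Finite.of_injective φ hinj
  have hquad : ∀ k : K, IsQuad (fun v => q0 n (φ k v)) := by
    intro k v w
    simp only [map_add]
    rw [q0_isQuad n, hSp k v w]
  refine not_hasStar ((diag (n := n)).range.comap φ) ?_ ?_
    { carrier := {k | ∀ v, q0 n (φ k v) = q0 n v}
      one_mem' := by intro v; rw [map_one]; rfl
      mul_mem' := by
        intro a b ha hb v
        rw [map_mul]
        exact (ha (φ b v)).trans (hb v)
      inv_mem' := by
        intro a ha v
        rw [map_inv]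
        have h := ha ((φ a)⁻¹ v)
        have e : φ a ((φ a)⁻¹ v) = v := LinearEquiv.apply_symm_apply (φ a) v
        rw [e] at h
        exact h.symm } ?_ ?_
  · rintro a ⟨s, hs⟩ b ⟨t, ht⟩
    apply hinj
    have hcomm : s * t = t * s := by
      ext1 i
      apply Subtype.ext
      obtain ⟨k, hk⟩ := (s i).2
      obtain ⟨l, hl⟩ := (t i).2
      show (s i : P ≃ₗ[ZMod 2] P) * t i = t i * s i
      rw [← hk, ← hl]
      exact ((Commute.refl rot).zpow_zpow k l).eq
    rw [map_mul, map_mul, ← hs, ← ht, ← map_mul, ← map_mul, hcomm]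
  · refine coprime_card (k := 3) Nat.prime_two (by norm_num) _ ?_
    rintro a ⟨s, hs⟩
    apply hinj
    rw [map_pow, ← hs, ← map_pow, map_one]
    have : s ^ 3 = 1 := by ext1 i; exact zpow_cube (s i)
    rw [this, map_one]
  · intro htop
    obtain ⟨k, hk⟩ := hA (rotAt (⟨1, by omega⟩ : Fin n))
    have hmem : k ∈ (⊤ : Subgroup K) := Subgroup.mem_top k
    rw [← htop] at hmem
    have h1 := hmem (Pi.single (⟨1, by omega⟩ : Fin n) (0, 1) : V n)
    have h10 : (⟨1, by omega⟩ : Fin n) ≠ 0 := by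
      intro h
      have := congrArg Fin.val h
      simp at this
    have h2 : φ k (Pi.single (⟨1, by omega⟩ : Fin n) (0, 1) : V n) =
        Pi.single (⟨1, by omega⟩ : Fin n) (1, 1) := by
      rw [hk]
      ext1 j
      rw [diag_apply, rotAt]
      by_cases hj : j = ⟨1, by omega⟩
      · subst hj
        rw [Function.update_self, Pi.single_eq_same, Pi.single_eq_same]
        decide
      · rw [Function.update_of_ne hj, Pi.single_eq_of_ne hj, Pi.single_eq_of_ne hj]
        rfl
    rw [h2, q0_single, q0_single, if_neg h10] at h1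
    simp at h1
  · intro x
    have hq := hquad x⁻¹
    have hneg : ∑ v : V n, chi (q0 n (φ x⁻¹ v)) < 0 := by
      rw [charSum_comp (φ x⁻¹) (q0 n)]
      exact q0_charSum n
    obtain ⟨i, h1, h2⟩ := hq.exists_plane hneg
    obtain ⟨a, ha⟩ := hA (rotAt i)
    refine ⟨a, ⟨_, ha.symm⟩, ?_, ?_⟩
    · rintro rfl
      rw [map_one] at ha
      exact diag_rotAt_ne i ha.symm
    · intro v
      have h3 := diag_rotAt_fix hq h1 h2 (φ x v)
      have e : φ x⁻¹ (φ x v) = v := by
        rw [map_inv]; exact LinearEquiv.symm_apply_apply (φ x) v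
      rw [e] at h3
      rw [map_mul, map_mul, ha]
      exact h3

/-! ### the rotations lie in the derived subgroup -/

/-- the reflection of the plane exchanging the coordinates -/
def refl : P ≃ₗ[ZMod 2] P where
  toFun := fun p => (p.2, p.1)
  invFun := fun p => (p.2, p.1)
  map_add' := by decide
  map_smul' := by decide
  left_inv := by intro p; rfl
  right_inv := by intro p; rfl

/-- the simultaneous reflection of all the planes -/
def reflAll : V n ≃ₗ[ZMod 2] V n := LinearEquiv.piCongrRight fun _ => refl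

lemma reflAll_mem : (reflAll : V n ≃ₗ[ZMod 2] V n) ∈ Sp n := by
  intro v w
  rw [form, form]
  refine Finset.sum_congr rfl fun i _ => ?_
  show (v i).2 * (w i).1 + (v i).1 * (w i).2 = _
  ring

lemma refl_conj (s : Subgroup.zpowers rot) (p : P) :
    refl ((s : P ≃ₗ[ZMod 2] P) (refl p)) = ((s⁻¹ : Subgroup.zpowers rot) : P ≃ₗ[ZMod 2] P) p := by
  have h : refl * (s : P ≃ₗ[ZMod 2] P) * refl⁻¹ = ((s⁻¹ : Subgroup.zpowers rot) : P ≃ₗ[ZMod 2] P) := by
    obtain ⟨s, k, rfl⟩ := s
    show refl * rot ^ k * refl⁻¹ = (rot ^ k)⁻¹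
    rw [← conj_zpow, ← zpow_neg, ← inv_zpow']
    congr 1
    ext p <;> revert p <;> decide
  exact congrArg (fun g : P ≃ₗ[ZMod 2] P => g p) h

lemma refl_diag (s : Fin n → Subgroup.zpowers rot) :
    (reflAll : V n ≃ₗ[ZMod 2] V n) * diag s * reflAll⁻¹ * (diag s)⁻¹ = diag s := by
  have h1 : (reflAll : V n ≃ₗ[ZMod 2] V n) * diag s * reflAll⁻¹ = diag s⁻¹ := by
    ext1 v
    ext1 i
    exact refl_conj (s i) (v i)
  rw [h1, ← map_inv, ← map_mul]
  congr 1
  have : s ^ 3 = 1 := by ext1 i; exact zpow_cube (s i)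
  calc s⁻¹ * s⁻¹ = s⁻¹ * s⁻¹ * s ^ 3 := by rw [this, mul_one]
    _ = s := by group

/-! ### comparison with Mathlib's matrix group -/

/-- the coordinates -/
def coord (n : ℕ) : (Fin n ⊕ Fin n → ZMod 2) ≃ₗ[ZMod 2] V n where
  toFun := fun v i => (v (Sum.inl i), v (Sum.inr i))
  invFun := fun v => Sum.elim (fun i => (v i).1) (fun i => (v i).2)
  map_add' := fun _ _ => rfl
  map_smul' := fun _ _ => rfl
  left_inv := by intro v; ext1 i; cases i <;> rfl
  right_inv := by intro v; rfl

/-- the action of matrices on `V` -/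
def psi (n : ℕ) : Matrix.symplecticGroup (Fin n) (ZMod 2) →* Module.End (ZMod 2) (V n) where
  toFun := fun A => (coord n).toLinearMap ∘ₗ Matrix.toLin' (A : Matrix (Fin n ⊕ Fin n) (Fin n ⊕ Fin n) (ZMod 2)) ∘ₗ
    (coord n).symm.toLinearMap
  map_one' := by
    refine LinearMap.ext fun v => ?_
    show coord n (Matrix.toLin' (1 : Matrix (Fin n ⊕ Fin n) (Fin n ⊕ Fin n) (ZMod 2))
      ((coord n).symm v)) = v
    rw [Matrix.toLin'_one, LinearMap.id_apply, LinearEquiv.apply_symm_apply]
  map_mul' := by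
    intro A B
    refine LinearMap.ext fun v => ?_
    show coord n (Matrix.toLin' ((A : Matrix (Fin n ⊕ Fin n) (Fin n ⊕ Fin n) (ZMod 2)) *
      (B : Matrix (Fin n ⊕ Fin n) (Fin n ⊕ Fin n) (ZMod 2))) ((coord n).symm v)) =
      coord n (Matrix.toLin' (A : Matrix (Fin n ⊕ Fin n) (Fin n ⊕ Fin n) (ZMod 2))
        ((coord n).symm (coord n (Matrix.toLin'
          (B : Matrix (Fin n ⊕ Fin n) (Fin n ⊕ Fin n) (ZMod 2)) ((coord n).symm v)))))
    rw [Matrix.toLin'_mul, LinearMap.comp_apply, LinearEquiv.symm_apply_apply]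

/-- the same, with values in the linear automorphisms -/
noncomputable def phi (n : ℕ) : Matrix.symplecticGroup (Fin n) (ZMod 2) →* (V n ≃ₗ[ZMod 2] V n) :=
  (LinearMap.GeneralLinearGroup.generalLinearEquiv (ZMod 2) (V n)).toMonoidHom.comp (psi n).toHomUnits

lemma phi_apply (A : Matrix.symplecticGroup (Fin n) (ZMod 2)) (v : V n) :
    phi n A v = coord n (Matrix.mulVec (A : Matrix (Fin n ⊕ Fin n) (Fin n ⊕ Fin n) (ZMod 2)) ((coord n).symm v)) := rfl

lemma form_coord (v w : Fin n ⊕ Fin n → ZMod 2) :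
    form (coord n v) (coord n w) = v ⬝ᵥ (Matrix.J (Fin n) (ZMod 2)).mulVec w := by
  rw [form, dotProduct, Fintype.sum_sum_type]
  have h1 : ∀ i : Fin n, (Matrix.J (Fin n) (ZMod 2)).mulVec w (Sum.inl i) = w (Sum.inr i) := by
    intro i
    rw [Matrix.mulVec, dotProduct, Fintype.sum_sum_type]
    simp [Matrix.J, Matrix.one_apply, ZMod.neg_eq_self_mod_two]
  have h2 : ∀ i : Fin n, (Matrix.J (Fin n) (ZMod 2)).mulVec w (Sum.inr i) = w (Sum.inl i) := by
    intro i
    rw [Matrix.mulVec, dotProduct, Fintype.sum_sum_type]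
    simp [Matrix.J, Matrix.one_apply]
  simp only [h1, h2, ← Finset.sum_add_distrib]
  rfl

lemma dot_aux {m : Type} [Fintype m] (A J : Matrix m m (ZMod 2)) (x y : m → ZMod 2) :
    (A.mulVec x) ⬝ᵥ (J.mulVec (A.mulVec y)) = x ⬝ᵥ ((A.transpose * J * A).mulVec y) := by
  rw [Matrix.mulVec_mulVec, ← Matrix.vecMul_transpose A x, ← Matrix.dotProduct_mulVec,
    Matrix.mulVec_mulVec, Matrix.mul_assoc]

lemma phi_mem (A : Matrix.symplecticGroup (Fin n) (ZMod 2)) : phi n A ∈ Sp n := by
  intro v w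
  have hA : (A : Matrix (Fin n ⊕ Fin n) (Fin n ⊕ Fin n) (ZMod 2)).transpose *
      Matrix.J (Fin n) (ZMod 2) * (A : Matrix (Fin n ⊕ Fin n) (Fin n ⊕ Fin n) (ZMod 2)) =
      Matrix.J (Fin n) (ZMod 2) := SymplecticGroup.mem_iff'.1 A.2
  obtain ⟨x, rfl⟩ := (coord n).surjective v
  obtain ⟨y, rfl⟩ := (coord n).surjective w
  rw [phi_apply, phi_apply, form_coord, LinearEquiv.symm_apply_apply,
    LinearEquiv.symm_apply_apply, form_coord, dot_aux, hA]

lemma phi_injective : Function.Injective (phi n) := by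
  intro A B h
  apply Subtype.ext
  apply Matrix.toLin'.injective
  refine LinearMap.ext fun v => ?_
  have h1 := congrArg (fun g : V n ≃ₗ[ZMod 2] V n => g (coord n v)) h
  simp only [phi_apply, LinearEquiv.symm_apply_apply] at h1
  exact (coord n).injective h1

lemma phi_surj (g : V n ≃ₗ[ZMod 2] V n) (hg : g ∈ Sp n) : ∃ A, phi n A = g := by
  let L : (Fin n ⊕ Fin n → ZMod 2) →ₗ[ZMod 2] (Fin n ⊕ Fin n → ZMod 2) :=
    (coord n).symm.toLinearMap ∘ₗ g.toLinearMap ∘ₗ (coord n).toLinearMap
  have hL : ∀ v, L v = (coord n).symm (g (coord n v)) := fun _ => rfl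
  have hmul : ∀ v, (LinearMap.toMatrix' L).mulVec v = L v := fun v => by
    rw [← Matrix.toLin'_apply, Matrix.toLin'_toMatrix']
  have hmem : LinearMap.toMatrix' L ∈ Matrix.symplecticGroup (Fin n) (ZMod 2) := by
    rw [SymplecticGroup.mem_iff']
    ext i j
    have h := hg (coord n (Pi.single i 1)) (coord n (Pi.single j 1))
    rw [form_coord, ← (coord n).apply_symm_apply (g (coord n (Pi.single i 1))),
      ← (coord n).apply_symm_apply (g (coord n (Pi.single j 1))), ← hL, ← hL, form_coord,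
      ← hmul, ← hmul, dot_aux, Matrix.mulVec_single_one, Matrix.mulVec_single_one,
      single_one_dotProduct, single_one_dotProduct] at h
    exact h
  refine ⟨⟨_, hmem⟩, ?_⟩
  ext1 v
  rw [phi_apply]
  show coord n ((LinearMap.toMatrix' L).mulVec ((coord n).symm v)) = g v
  rw [hmul, hL, LinearEquiv.apply_symm_apply, LinearEquiv.apply_symm_apply]

/-- **Theorem.**  For every `n ≥ 2` neither the symplectic group `Sp_{2n}(2)` nor its derived
subgroup has property `(∗)` in characteristic two. -/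
theorem result (n : ℕ) (hn : 2 ≤ n) :
    ¬ HasStar 2 (Matrix.symplecticGroup (Fin n) (ZMod 2)) ∧
    ¬ HasStar 2 (commutator (Matrix.symplecticGroup (Fin n) (ZMod 2))) := by
  constructor
  · exact main n hn (phi n) phi_injective phi_mem (fun s => phi_surj _ (diag_mem_Sp s))
  · refine main n hn ((phi n).comp (commutator _).subtype)
      (phi_injective.comp (Subgroup.subtype_injective _)) (fun k => phi_mem _) (fun s => ?_)
    obtain ⟨a, ha⟩ := phi_surj _ (reflAll_mem (n := n))
    obtain ⟨b, hb⟩ := phi_surj _ (diag_mem_Sp s)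
    have h : ⁅a, b⁆ ∈ commutator (Matrix.symplecticGroup (Fin n) (ZMod 2)) :=
      Subgroup.commutator_mem_commutator (Subgroup.mem_top _) (Subgroup.mem_top _)
    refine ⟨⟨_, h⟩, ?_⟩
    show phi n ⁅a, b⁆ = diag s
    rw [commutatorElement_def, map_mul, map_mul, map_mul, map_inv, map_inv, ha, hb, refl_diag]

end Pool.Agent.Results.MP_1b60fb_al.SymplecticTwo
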