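import Mathlib
import Pool.Agent.R682.Star
import Pool.Agent.Results.MP_1b60fb_al.SymplecticTwo

/-!
# Orthogonal groups over the field with two elements do not have property `(∗)`
-/

set_option autoImplicit false

open Pool.Agent.R682
open Pool.Agent.Results.MP_1b60fb_al.SymplecticTwo
open scoped commutatorElement

namespace Pool.Agent.Results.MP_1b60fb_al.OrthogonalTwo

/-- The quadratic form `∑ᵢ (xᵢ² + xᵢ yᵢ + yᵢ²)` in the `2n` variables `xᵢ = v (inl i)`,
`yᵢ = v (inr i)` over the field with two elements. -/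
def Q {n : ℕ} (v : Fin n ⊕ Fin n → ZMod 2) : ZMod 2 :=
  ∑ i : Fin n, (v (Sum.inl i) ^ 2 + v (Sum.inl i) * v (Sum.inr i) + v (Sum.inr i) ^ 2)

/-- The orthogonal group of `Q`: all invertible matrices `g` with `Q (g v) = Q v`. -/
def O (n : ℕ) : Subgroup (Matrix.GeneralLinearGroup (Fin n ⊕ Fin n) (ZMod 2)) where
  carrier := {g | ∀ v, Q (g.1.mulVec v) = Q v}
  one_mem' := by
    intro v
    rw [Units.val_one, Matrix.one_mulVec]
  mul_mem' := by
    intro a b ha hb v
    rw [Units.val_mul, ← Matrix.mulVec_mulVec, ha, hb]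
  inv_mem' := by
    intro a ha v
    have h := ha ((a⁻¹).1.mulVec v)
    rw [Matrix.mulVec_mulVec, ← Units.val_mul, mul_inv_cancel, Units.val_one,
      Matrix.one_mulVec] at h
    exact h.symm

variable {n : ℕ}

/-! ### the form on `n` planes -/

/-- the anisotropic form of the plane -/
def qP (p : P) : ZMod 2 := p.1 ^ 2 + p.1 * p.2 + p.2 ^ 2

/-- the form on the sum of `n` planes -/
def qV (v : V n) : ZMod 2 := ∑ i, qP (v i)

lemma qP_eq : ∀ p : P, qP p = if p = 0 then 0 else 1 := by decide

lemma qP_rot : ∀ p : P, qP (rot p) = qP p := by decide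

lemma qP_zpow (s : Subgroup.zpowers rot) (p : P) : qP ((s : P ≃ₗ[ZMod 2] P) p) = qP p := by
  have h : ((s : P ≃ₗ[ZMod 2] P) p) = 0 ↔ p = 0 := by
    constructor
    · intro h; exact (LinearEquiv.map_eq_zero_iff _).1 h
    · rintro rfl; exact map_zero _
  rw [qP_eq, qP_eq]
  by_cases hp : p = 0
  · rw [if_pos (h.2 hp), if_pos hp]
  · rw [if_neg (fun h' => hp (h.1 h')), if_neg hp]

lemma qV_coord (v : Fin n ⊕ Fin n → ZMod 2) : qV (coord n v) = Q v := rfl

lemma qV_card (v : V n) : qV v = ((Finset.univ.filter fun i => v i ≠ 0).card : ZMod 2) := by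
  rw [qV, Finset.card_eq_sum_ones, Nat.cast_sum, Finset.sum_filter]
  refine Finset.sum_congr rfl fun i _ => ?_
  rw [qP_eq]
  by_cases h : v i = 0
  · rw [if_pos h, if_neg (not_not.2 h)]
  · rw [if_neg h, if_pos h]; norm_num

/-- a vector whose norm is different from `n` has a zero component -/
lemma exists_zero (v : V n) (h : qV v ≠ (n : ZMod 2)) : ∃ i, v i = 0 := by
  by_contra hcon
  push Not at hcon
  apply h
  rw [qV_card, Finset.filter_true_of_mem (fun i _ => hcon i), Finset.card_univ, Fintype.card_fin]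

/-! ### the action -/

/-- the action of matrices on `V` -/
def psiM (n : ℕ) : Matrix (Fin n ⊕ Fin n) (Fin n ⊕ Fin n) (ZMod 2) →* Module.End (ZMod 2) (V n) where
  toFun := fun A => (coord n).toLinearMap ∘ₗ Matrix.toLin' A ∘ₗ (coord n).symm.toLinearMap
  map_one' := by
    refine LinearMap.ext fun v => ?_
    show coord n (Matrix.toLin' (1 : Matrix (Fin n ⊕ Fin n) (Fin n ⊕ Fin n) (ZMod 2))
      ((coord n).symm v)) = v
    rw [Matrix.toLin'_one, LinearMap.id_apply, LinearEquiv.apply_symm_apply]
  map_mul' := by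
    intro A B
    refine LinearMap.ext fun v => ?_
    show coord n (Matrix.toLin' (A * B) ((coord n).symm v)) =
      coord n (Matrix.toLin' A ((coord n).symm (coord n (Matrix.toLin' B ((coord n).symm v)))))
    rw [Matrix.toLin'_mul, LinearMap.comp_apply, LinearEquiv.symm_apply_apply]

/-- the action of `O n` on `V` -/
noncomputable def phiO (n : ℕ) : O n →* (V n ≃ₗ[ZMod 2] V n) :=
  (LinearMap.GeneralLinearGroup.generalLinearEquiv (ZMod 2) (V n)).toMonoidHom.comp
    ((Units.map (psiM n)).comp (O n).subtype)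

lemma phiO_apply (A : O n) (v : V n) :
    phiO n A v = coord n (Matrix.mulVec (A : Matrix.GeneralLinearGroup (Fin n ⊕ Fin n) (ZMod 2)).1
      ((coord n).symm v)) := rfl

lemma phiO_q (A : O n) (v : V n) : qV (phiO n A v) = qV v := by
  rw [phiO_apply, qV_coord, A.2, ← qV_coord, LinearEquiv.apply_symm_apply]

lemma phiO_injective : Function.Injective (phiO n) := by
  intro A B h
  apply Subtype.ext
  apply Units.ext
  apply Matrix.toLin'.injective
  refine LinearMap.ext fun v => ?_
  have h1 := congrArg (fun g : V n ≃ₗ[ZMod 2] V n => g (coord n v)) h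
  simp only [phiO_apply, LinearEquiv.symm_apply_apply] at h1
  exact (coord n).injective h1

lemma phiO_surj (g : V n ≃ₗ[ZMod 2] V n) (hg : ∀ v, qV (g v) = qV v) : ∃ A, phiO n A = g := by
  let L : (V n ≃ₗ[ZMod 2] V n) →
      ((Fin n ⊕ Fin n → ZMod 2) →ₗ[ZMod 2] (Fin n ⊕ Fin n → ZMod 2)) :=
    fun g : V n ≃ₗ[ZMod 2] V n =>
      (coord n).symm.toLinearMap ∘ₗ g.toLinearMap ∘ₗ (coord n).toLinearMap
  have hL : ∀ g v, L g v = (coord n).symm (g (coord n v)) := fun _ _ => rfl
  have hmul : ∀ g v, (LinearMap.toMatrix' (L g)).mulVec v = L g v := fun g v => by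
    rw [← Matrix.toLin'_apply, Matrix.toLin'_toMatrix']
  have hinv : ∀ g h : V n ≃ₗ[ZMod 2] V n, (∀ v, g (h v) = v) →
      LinearMap.toMatrix' (L g) * LinearMap.toMatrix' (L h) = 1 := by
    intro g h hgh
    rw [← LinearMap.toMatrix'_mul, ← LinearMap.toMatrix'_one]
    congr 1
    refine LinearMap.ext fun v => ?_
    show L g (L h v) = v
    rw [hL, hL, LinearEquiv.apply_symm_apply, hgh, LinearEquiv.symm_apply_apply]
  let M : Matrix.GeneralLinearGroup (Fin n ⊕ Fin n) (ZMod 2) :=
    ⟨LinearMap.toMatrix' (L g), LinearMap.toMatrix' (L g.symm), hinv _ _ g.apply_symm_apply,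
      hinv _ _ g.symm_apply_apply⟩
  have hM : M ∈ O n := by
    intro v
    show Q ((LinearMap.toMatrix' (L g)).mulVec v) = Q v
    rw [hmul, hL, ← qV_coord, LinearEquiv.apply_symm_apply, hg, qV_coord]
  refine ⟨⟨M, hM⟩, ?_⟩
  ext1 v
  rw [phiO_apply]
  show coord n ((LinearMap.toMatrix' (L g)).mulVec ((coord n).symm v)) = g v
  rw [hmul, hL, LinearEquiv.apply_symm_apply, LinearEquiv.apply_symm_apply]

lemma diag_q (s : Fin n → Subgroup.zpowers rot) (v : V n) : qV (diag s v) = qV v := by
  rw [qV, qV]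
  refine Finset.sum_congr rfl fun i _ => ?_
  rw [diag_apply, qP_zpow]

lemma reflAll_q (v : V n) : qV (reflAll v) = qV v := by
  rw [qV, qV]
  refine Finset.sum_congr rfl fun i _ => ?_
  show (v i).2 ^ 2 + (v i).2 * (v i).1 + (v i).1 ^ 2 = _
  rw [qP]; ring

/-- the rotations lie in the derived subgroup -/
lemma diag_comm (s : Fin n → Subgroup.zpowers rot) :
    ∃ k : commutator (O n), phiO n (k : O n) = diag s := by
  obtain ⟨a, ha⟩ := phiO_surj _ (reflAll_q (n := n))
  obtain ⟨b, hb⟩ := phiO_surj _ (diag_q s)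
  have h : ⁅a, b⁆ ∈ commutator (O n) :=
    Subgroup.commutator_mem_commutator (Subgroup.mem_top _) (Subgroup.mem_top _)
  refine ⟨⟨_, h⟩, ?_⟩
  show phiO n ⁅a, b⁆ = diag s
  rw [commutatorElement_def, map_mul, map_mul, map_mul, map_inv, map_inv, ha, hb, refl_diag]

lemma diag_rotAt_apply (i : Fin n) (v : V n) (hv : v i = 0) : diag (rotAt i) v = v := by
  ext1 j
  rw [diag_apply, rotAt]
  by_cases hj : j = i
  · subst hj
    rw [hv, map_zero]
  · rw [Function.update_of_ne hj]; rfl

/-- the general argument, for a vector `v` whose norm is not `n` -/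
theorem main (v : V n) (hv : qV v ≠ (n : ZMod 2)) (hne : v ≠ 0) :
    ¬ HasStar 2 (commutator (O n)) := by
  let φ : commutator (O n) →* (V n ≃ₗ[ZMod 2] V n) := (phiO n).comp (commutator (O n)).subtype
  have hinj : Function.Injective φ := phiO_injective.comp (Subgroup.subtype_injective _)
  have : Finite (V n ≃ₗ[ZMod 2] V n) :=
    Finite.of_injective (fun g : V n ≃ₗ[ZMod 2] V n => (g : V n → V n)) DFunLike.coe_injective
  have : Finite (commutator (O n)) := Finite.of_injective φ hinj
  refine not_hasStar ((diag (n := n)).range.comap φ) ?_ ?_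
    { carrier := {k | φ k v = v}
      one_mem' := by show φ 1 v = v; rw [map_one]; rfl
      mul_mem' := by
        intro a b (ha : φ a v = v) (hb : φ b v = v)
        show φ (a * b) v = v
        rw [map_mul]
        show φ a (φ b v) = v
        rw [hb, ha]
      inv_mem' := by
        intro a (ha : φ a v = v)
        show φ a⁻¹ v = v
        rw [map_inv]
        show (φ a).symm v = v
        rw [LinearEquiv.symm_apply_eq, ha] } ?_ ?_
  · rintro a ⟨s, hs⟩ b ⟨t, ht⟩
    apply hinj
    have hcomm : s * t = t * s := by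
      ext1 i
      apply Subtype.ext
      obtain ⟨k, hk⟩ := (s i).2
      obtain ⟨l, hl⟩ := (t i).2
      show (s i : P ≃ₗ[ZMod 2] P) * t i = t i * s i
      rw [← hk, ← hl]
      exact ((Commute.refl rot).zpow_zpow k l).eq
    rw [map_mul, map_mul, ← hs, ← ht, ← map_mul, ← map_mul, hcomm]
  · refine coprime_card (k := 3) Nat.prime_two (by norm_num) _ ?_
    rintro a ⟨s, hs⟩
    apply hinj
    rw [map_pow, ← hs, ← map_pow, map_one]
    have : s ^ 3 = 1 := by ext1 i; exact zpow_cube (s i)
    rw [this, map_one]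
  · intro htop
    obtain ⟨i, hi⟩ := Function.ne_iff.1 hne
    obtain ⟨k, hk⟩ := diag_comm (rotAt i)
    have hmem : k ∈ (⊤ : Subgroup (commutator (O n))) := Subgroup.mem_top k
    rw [← htop] at hmem
    have h1 : phiO n (k : O n) v = v := hmem
    rw [hk] at h1
    have h2 := congrFun h1 i
    rw [diag_apply, rotAt, Function.update_self] at h2
    have h3 : ∀ p : P, rot p = p → p = 0 := by decide
    exact hi (h3 _ h2)
  · intro x
    have hx : qV (φ x v) ≠ (n : ZMod 2) := by
      have : qV (φ x v) = qV v := phiO_q (x : O n) v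
      rwa [this]
    obtain ⟨i, hi⟩ := exists_zero _ hx
    obtain ⟨a, ha⟩ := diag_comm (rotAt i)
    have ha' : φ a = diag (rotAt i) := ha
    refine ⟨a, ⟨_, ha'.symm⟩, ?_, ?_⟩
    · rintro rfl
      rw [map_one] at ha'
      exact diag_rotAt_ne i ha'.symm
    · show φ (x⁻¹ * a * x) v = v
      rw [map_mul, map_mul, ha', map_inv]
      show (φ x).symm (diag (rotAt i) (φ x v)) = v
      rw [diag_rotAt_apply i _ hi, LinearEquiv.symm_apply_apply]

/-- **Theorem.**  For every `n ≥ 3` the derived subgroup `Ω_{2n}^ε(2)` of the orthogonal group of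
`Q` (of type `ε = (-1)ⁿ`) does not have property `(∗)` in characteristic two. -/
theorem result (n : ℕ) (hn : 3 ≤ n) : ¬ HasStar 2 (commutator (O n)) := by
  let i0 : Fin n := ⟨0, by omega⟩
  let i1 : Fin n := ⟨1, by omega⟩
  have h01 : i0 ≠ i1 := by simp [i0, i1]
  have h2 : ((2 : ℕ) : ZMod 2) = 0 := by decide
  have e1 : qP (1, 0) = 1 := by decide
  rcases Nat.even_or_odd n with he | ho
  · refine main (Pi.single i0 (1, 0)) ?_ ?_
    · obtain ⟨k, hk⟩ := he
      have h4 : (n : ZMod 2) = 0 := by
        rw [hk, ← two_mul, Nat.cast_mul, h2, zero_mul]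
      rw [h4, qV, Finset.sum_eq_single i0]
      · rw [Pi.single_eq_same, e1]; decide
      · intro j _ hj
        rw [Pi.single_eq_of_ne hj]; decide
      · intro h; exact absurd (Finset.mem_univ _) h
    · intro h
      have := congrFun h i0
      rw [Pi.single_eq_same] at this
      exact absurd (congrArg Prod.fst this) (by show ¬ (1 : ZMod 2) = 0; decide)
  · refine main (Pi.single i0 (1, 0) + Pi.single i1 (1, 0)) ?_ ?_
    · obtain ⟨k, hk⟩ := ho
      have h4 : (n : ZMod 2) = 1 := by
        rw [hk, Nat.cast_add, Nat.cast_mul, h2, zero_mul, zero_add, Nat.cast_one]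
      have h5 : qV (Pi.single i0 (1, 0) + Pi.single i1 (1, 0) : V n) = 0 := by
        rw [qV, ← Finset.sum_subset (Finset.subset_univ {i0, i1}), Finset.sum_pair h01]
        · rw [Pi.add_apply, Pi.add_apply, Pi.single_eq_same, Pi.single_eq_same,
            Pi.single_eq_of_ne h01, Pi.single_eq_of_ne h01.symm, add_zero, zero_add, e1]
          decide
        · intro j _ hj
          simp only [Finset.mem_insert, Finset.mem_singleton, not_or] at hj
          rw [Pi.add_apply, Pi.single_eq_of_ne hj.1, Pi.single_eq_of_ne hj.2]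
          decide
      rw [h4, h5]
      decide
    · intro h
      have := congrFun h i0
      rw [Pi.add_apply, Pi.single_eq_same, Pi.single_eq_of_ne h01, add_zero] at this
      exact absurd (congrArg Prod.fst this) (by show ¬ (1 : ZMod 2) = 0; decide)

end Pool.Agent.Results.MP_1b60fb_al.OrthogonalTwo
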