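import Mathlib
import Pool.Agent.R682.Star

/-!
# The unitary groups over the field with four elements do not have property `(∗)`
-/

set_option autoImplicit false

open Pool.Agent.R682

namespace Pool.Agent.Results.MP_1b60fb_al.UnitaryTwo

/-- The special unitary group `SU_n(2)`: all `n × n` matrices `g` over the field with four
elements with `det g = 1` and `gᴴ g = 1`, where `gᴴ` is the transpose of the matrix obtained from
`g` by applying the field automorphism `x ↦ x ^ 2` to the entries. -/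
def SU (n : ℕ) : Subgroup (Matrix.SpecialLinearGroup (Fin n) (GaloisField 2 2)) where
  carrier := {g | (g.1.map fun x => x ^ 2).transpose * g.1 = 1}
  one_mem' := by
    show ((1 : Matrix (Fin n) (Fin n) (GaloisField 2 2)).map (frobenius (GaloisField 2 2) 2)).transpose * 1 = 1
    rw [mul_one, Matrix.map_one _ (map_zero _) (map_one _), Matrix.transpose_one]
  mul_mem' := by
    intro a b ha hb
    have ha' : (a.1.map (frobenius (GaloisField 2 2) 2)).transpose * a.1 = 1 := ha
    have hb' : (b.1.map (frobenius (GaloisField 2 2) 2)).transpose * b.1 = 1 := hb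
    show ((a.1 * b.1).map (frobenius (GaloisField 2 2) 2)).transpose * (a.1 * b.1) = 1
    rw [Matrix.map_mul, Matrix.transpose_mul, Matrix.mul_assoc, ← Matrix.mul_assoc _ a.1 b.1, ha',
      one_mul, hb']
  inv_mem' := by
    intro a ha
    have ha' : (a.1.map (frobenius (GaloisField 2 2) 2)).transpose * a.1 = 1 := ha
    have h1 : a.1 * (a⁻¹).1 = 1 := congrArg Subtype.val (mul_inv_cancel a)
    have h2 : (a.1.map (frobenius (GaloisField 2 2) 2)).transpose = (a⁻¹).1 := by
      calc (a.1.map (frobenius (GaloisField 2 2) 2)).transpose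
          = (a.1.map (frobenius (GaloisField 2 2) 2)).transpose * (a.1 * (a⁻¹).1) := by rw [h1, mul_one]
        _ = (a⁻¹).1 := by rw [← Matrix.mul_assoc, ha', one_mul]
    show ((a⁻¹).1.map (frobenius (GaloisField 2 2) 2)).transpose * (a⁻¹).1 = 1
    have h3 : ((a⁻¹).1.map (frobenius (GaloisField 2 2) 2)).transpose * (a.1.map (frobenius (GaloisField 2 2) 2)).transpose = 1 := by
      rw [← Matrix.transpose_mul, ← Matrix.map_mul, h1, Matrix.map_one _ (map_zero _) (map_one _),
        Matrix.transpose_one]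
    rw [← h2]
    rw [← h2] at h3
    exact h3

/-- the field with four elements -/
abbrev F4 := GaloisField 2 2

/-! ### the Hermitian norm -/

noncomputable section

open Classical

instance : Fintype F4 := Fintype.ofFinite F4

lemma card4 : Fintype.card F4 = 4 := by
  rw [Fintype.card_eq_nat_card, GaloisField.card 2 2 (by norm_num)]; rfl

lemma cube (x : F4) (hx : x ≠ 0) : x ^ 3 = 1 := by
  have h := FiniteField.pow_card_sub_one_eq_one x hx
  rwa [card4] at h

variable {n : ℕ}

/-- the Hermitian norm of a vector -/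
def N (v : Fin n → F4) : F4 := ∑ i, v i ^ 3

lemma N_eq (v : Fin n → F4) : N v = ((Finset.univ.filter fun i => v i ≠ 0).card : F4) := by
  rw [N, Finset.card_eq_sum_ones, Nat.cast_sum, Finset.sum_filter]
  refine Finset.sum_congr rfl fun i _ => ?_
  by_cases h : v i = 0
  · rw [if_neg (not_not.2 h), h]; norm_num
  · rw [if_pos h, cube _ h]; norm_num

lemma N_dot (v : Fin n → F4) : N v = (fun i => frobenius F4 2 (v i)) ⬝ᵥ v := by
  rw [N, dotProduct]
  refine Finset.sum_congr rfl fun i _ => ?_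
  rw [frobenius_def, ← pow_succ]

lemma N_mul (g : Matrix (Fin n) (Fin n) F4) (hg : (g.map (frobenius F4 2)).transpose * g = 1)
    (v : Fin n → F4) : N (g.mulVec v) = N v := by
  have h1 : (fun i => frobenius F4 2 (g.mulVec v i)) =
      (g.map (frobenius F4 2)).mulVec (fun i => frobenius F4 2 (v i)) := by
    ext1 i
    rw [Matrix.mulVec, Matrix.mulVec, dotProduct, dotProduct, map_sum]
    refine Finset.sum_congr rfl fun j _ => ?_
    rw [map_mul]; rfl
  rw [N_dot, N_dot, h1, ← Matrix.vecMul_transpose, ← Matrix.dotProduct_mulVec, Matrix.mulVec_mulVec,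
    hg, Matrix.one_mulVec]

/-! ### diagonal and permutation matrices -/

/-- a diagonal matrix of determinant one with nonzero entries -/
def dg (t : Fin n → F4ˣ) (ht : ∏ i, t i = 1) : SU n :=
  ⟨⟨Matrix.diagonal fun i => (t i : F4), by
      rw [Matrix.det_diagonal, ← Units.coe_prod, ht, Units.val_one]⟩, by
    show ((Matrix.diagonal fun i => (t i : F4)).map (frobenius F4 2)).transpose *
      (Matrix.diagonal fun i => (t i : F4)) = 1
    rw [Matrix.diagonal_map (map_zero _), Matrix.diagonal_transpose, Matrix.diagonal_mul_diagonal,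
      ← Matrix.diagonal_one]
    congr 1
    ext1 i
    show frobenius F4 2 (t i : F4) * (t i : F4) = 1
    rw [frobenius_def, ← pow_succ, cube _ (t i).ne_zero]⟩

lemma dg_mulVec (t : Fin n → F4ˣ) (ht : ∏ i, t i = 1) (v : Fin n → F4) (i : Fin n) :
    (dg t ht).1.1.mulVec v i = t i * v i := by
  show (Matrix.diagonal fun i => (t i : F4)).mulVec v i = t i * v i
  rw [Matrix.mulVec_diagonal]

/-- the diagonal subgroup -/
def A (n : ℕ) : Subgroup (SU n) where
  carrier := {g | ∃ t : Fin n → F4ˣ, ∃ ht : ∏ i, t i = 1, g = dg t ht}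
  one_mem' := ⟨1, by simp, by
    apply Subtype.ext; apply Subtype.ext
    show (1 : Matrix (Fin n) (Fin n) F4) = Matrix.diagonal fun i => ((1 : F4ˣ) : F4)
    rw [← Matrix.diagonal_one]; rfl⟩
  mul_mem' := by
    rintro _ _ ⟨s, hs, rfl⟩ ⟨t, ht, rfl⟩
    refine ⟨s * t, by simp only [Pi.mul_apply, Finset.prod_mul_distrib, hs, ht, mul_one], ?_⟩
    apply Subtype.ext; apply Subtype.ext
    show (Matrix.diagonal fun i => (s i : F4)) * (Matrix.diagonal fun i => (t i : F4)) =
      Matrix.diagonal fun i => (((s * t) i : F4ˣ) : F4)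
    rw [Matrix.diagonal_mul_diagonal]; rfl
  inv_mem' := by
    rintro _ ⟨s, hs, rfl⟩
    refine ⟨s⁻¹, by simp only [Pi.inv_apply, Finset.prod_inv_distrib, hs, inv_one], ?_⟩
    rw [inv_eq_iff_mul_eq_one]
    apply Subtype.ext; apply Subtype.ext
    show (Matrix.diagonal fun i => (s i : F4)) * (Matrix.diagonal fun i => (((s⁻¹) i : F4ˣ) : F4)) = 1
    rw [Matrix.diagonal_mul_diagonal, ← Matrix.diagonal_one]
    congr 1
    ext1 i
    show (s i : F4) * ((s i)⁻¹ : F4ˣ) = 1
    rw [← Units.val_mul, mul_inv_cancel, Units.val_one]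

lemma A_comm (a : SU n) (ha : a ∈ A n) (b : SU n) (hb : b ∈ A n) : a * b = b * a := by
  obtain ⟨s, hs, rfl⟩ := ha
  obtain ⟨t, ht, rfl⟩ := hb
  apply Subtype.ext; apply Subtype.ext
  show (Matrix.diagonal fun i => (s i : F4)) * (Matrix.diagonal fun i => (t i : F4)) =
    (Matrix.diagonal fun i => (t i : F4)) * (Matrix.diagonal fun i => (s i : F4))
  rw [Matrix.diagonal_mul_diagonal, Matrix.diagonal_mul_diagonal]
  congr 1
  ext1 i
  exact mul_comm _ _

lemma A_cube (a : SU n) (ha : a ∈ A n) : a ^ 3 = 1 := by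
  obtain ⟨s, hs, rfl⟩ := ha
  apply Subtype.ext; apply Subtype.ext
  show (Matrix.diagonal fun i => (s i : F4)) ^ 3 = 1
  rw [Matrix.diagonal_pow, ← Matrix.diagonal_one]
  congr 1
  ext1 i
  show (s i : F4) ^ 3 = 1
  exact cube _ (s i).ne_zero

/-- the stabiliser of a line -/
def stab (v : Fin n → F4) : Subgroup (SU n) where
  carrier := {g | ∃ c : F4ˣ, g.1.1.mulVec v = (c : F4) • v}
  one_mem' := ⟨1, by
    show (1 : Matrix (Fin n) (Fin n) F4).mulVec v = _
    rw [Matrix.one_mulVec, Units.val_one, one_smul]⟩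
  mul_mem' := by
    rintro a b ⟨c, hc⟩ ⟨d, hd⟩
    refine ⟨d * c, ?_⟩
    show (a.1.1 * b.1.1).mulVec v = _
    rw [← Matrix.mulVec_mulVec, hd, Matrix.mulVec_smul, hc, smul_smul, Units.val_mul]
  inv_mem' := by
    rintro a ⟨c, hc⟩
    refine ⟨c⁻¹, ?_⟩
    have h1 : (a⁻¹).1.1 * a.1.1 = 1 := congrArg (fun g : SU n => g.1.1) (inv_mul_cancel a)
    have h2 : v = (c : F4) • (a⁻¹).1.1.mulVec v := by
      rw [← Matrix.mulVec_smul, ← hc, Matrix.mulVec_mulVec, h1, Matrix.one_mulVec]
    conv_rhs => rw [h2]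
    rw [smul_smul, ← Units.val_mul, inv_mul_cancel, Units.val_one, one_smul]

/-- the permutation matrices lie in `SU_n(2)` -/
lemma perm_mem (σ : Equiv.Perm (Fin n)) : ∃ g : SU n, ∀ (v : Fin n → F4) (i : Fin n),
    g.1.1.mulVec v i = v (σ i) := by
  have hdet : (Equiv.Perm.permMatrix F4 σ).det = 1 := by
    rw [Matrix.det_permutation]
    rcases Int.units_eq_one_or (Equiv.Perm.sign σ) with h | h
    · rw [h]; simp
    · rw [h]
      simp only [Units.val_neg, Units.val_one, Int.cast_neg, Int.cast_one]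
      exact CharTwo.neg_eq 1
  have hmap : (Equiv.Perm.permMatrix F4 σ).map (frobenius F4 2) = Equiv.Perm.permMatrix F4 σ := by
    ext i j
    rw [Matrix.map_apply, Equiv.Perm.permMatrix, PEquiv.toMatrix_apply]
    split_ifs
    · exact map_one _
    · exact map_zero _
  refine ⟨⟨⟨Equiv.Perm.permMatrix F4 σ, hdet⟩, ?_⟩, ?_⟩
  · show ((Equiv.Perm.permMatrix F4 σ).map (frobenius F4 2)).transpose * Equiv.Perm.permMatrix F4 σ = 1
    rw [hmap, Matrix.transpose_permMatrix, ← Matrix.permMatrix_mul, mul_inv_cancel]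
    exact Matrix.permMatrix_one
  · intro v i
    show (Equiv.Perm.permMatrix F4 σ).mulVec v i = v (σ i)
    rw [Matrix.permMatrix_mulVec]
    rfl

/-! ### the main argument -/

lemma exists_unit : ∃ w : F4ˣ, w ≠ 1 := by
  have : Nontrivial F4ˣ := by
    rw [← Fintype.one_lt_card_iff_nontrivial, Fintype.card_units, card4]; norm_num
  exact exists_ne 1

lemma unit_cube (w : F4ˣ) : w ^ 3 = 1 := by
  apply Units.ext
  rw [Units.val_pow_eq_pow_val, cube _ w.ne_zero, Units.val_one]

/-- a vector with a zero coordinate spans a line fixed by a nontrivial diagonal element -/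
lemma exists_fix (hn : 2 ≤ n) (u : Fin n → F4) (hz : ∃ j, u j = 0) :
    ∃ a ∈ A n, a ≠ 1 ∧ a ∈ stab u := by
  obtain ⟨w, hw⟩ := exists_unit
  obtain ⟨j, hj⟩ := hz
  -- `w` off `j`, and `w ^ (1 - n)` at `j`
  let t : Fin n → F4ˣ := fun i => if i = j then w * (w ^ n)⁻¹ else w
  have ht : ∏ i, t i = 1 := by
    rw [← Finset.mul_prod_erase Finset.univ _ (Finset.mem_univ j)]
    have h1 : ∏ i ∈ Finset.univ.erase j, t i = w ^ (n - 1) := by
      rw [Finset.prod_congr rfl (fun i hi => if_neg (Finset.ne_of_mem_erase hi)), Finset.prod_const,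
        Finset.card_erase_of_mem (Finset.mem_univ j), Finset.card_univ, Fintype.card_fin]
    rw [h1]
    show (if j = j then w * (w ^ n)⁻¹ else w) * w ^ (n - 1) = 1
    rw [if_pos rfl, mul_right_comm, ← pow_succ', Nat.sub_add_cancel (by omega), mul_inv_cancel]
  refine ⟨dg t ht, ⟨t, ht, rfl⟩, ?_, ?_⟩
  · intro h
    have : Nontrivial (Fin n) := Fin.nontrivial_iff_two_le.2 hn
    obtain ⟨k, hk⟩ := exists_ne j
    have h1 : (dg t ht).1.1.mulVec (Pi.single k 1) k = 1 := by
      rw [h]
      show (1 : Matrix (Fin n) (Fin n) F4).mulVec (Pi.single k 1) k = 1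
      rw [Matrix.one_mulVec, Pi.single_eq_same]
    rw [dg_mulVec, Pi.single_eq_same, mul_one] at h1
    have h2 : t k = w := if_neg hk
    rw [h2] at h1
    exact hw (Units.ext h1)
  · refine ⟨w, ?_⟩
    ext1 i
    rw [dg_mulVec, Pi.smul_apply, smul_eq_mul]
    by_cases hi : i = j
    · rw [hi, hj, mul_zero, mul_zero]
    · have h2 : t i = w := if_neg hi
      rw [h2]

theorem main (n : ℕ) (hn : 2 ≤ n) (v : Fin n → F4) (hv : N v ≠ (n : F4))
    (hmove : ∃ g : SU n, g ∉ stab v) : ¬ HasStar 2 (SU n) := by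
  have : Finite (SU n) := inferInstance
  refine not_hasStar (A n) A_comm (coprime_card (k := 3) Nat.prime_two (by norm_num) _ A_cube)
    (stab v) ?_ ?_
  · intro h
    obtain ⟨g, hg⟩ := hmove
    rw [h] at hg
    exact hg (Subgroup.mem_top g)
  · intro x
    have hNx : N (x.1.1.mulVec v) = N v := N_mul _ x.2 v
    have hz : ∃ j, x.1.1.mulVec v j = 0 := by
      by_contra hcon
      push Not at hcon
      apply hv
      rw [← hNx, N_eq, Finset.filter_true_of_mem (fun i _ => hcon i), Finset.card_univ,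
        Fintype.card_fin]
    obtain ⟨a, ha, ha1, c, hc⟩ := exists_fix hn _ hz
    refine ⟨a, ha, ha1, c, ?_⟩
    have h1 : (x⁻¹).1.1 * x.1.1 = 1 := congrArg (fun g : SU n => g.1.1) (inv_mul_cancel x)
    show ((x⁻¹).1.1 * a.1.1 * x.1.1).mulVec v = _
    rw [← Matrix.mulVec_mulVec, ← Matrix.mulVec_mulVec, hc, Matrix.mulVec_smul,
      Matrix.mulVec_mulVec, h1, Matrix.one_mulVec]

/-- **Theorem.**  For every `n ≥ 4` not divisible by three, the simple group
`PSU_n(2) = SU_n(2)` does not have property `(∗)` in characteristic two. -/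
theorem result (n : ℕ) (hn : 4 ≤ n) (_h3 : ¬ 3 ∣ n) : ¬ HasStar 2 (SU n) := by
  have h2 : ((2 : ℕ) : F4) = 0 := CharP.cast_eq_zero F4 2
  have : NeZero n := ⟨by omega⟩
  let i0 : Fin n := ⟨0, by omega⟩
  let i1 : Fin n := ⟨1, by omega⟩
  let i2 : Fin n := ⟨2, by omega⟩
  have h01 : i0 ≠ i1 := by simp [i0, i1]
  have h02 : i0 ≠ i2 := by simp [i0, i2]
  have h12 : i1 ≠ i2 := by simp [i1, i2]
  rcases Nat.even_or_odd n with he | ho
  · -- `n` even: the vector `e₀`
    refine main n (by omega) (Pi.single i0 1) ?_ ?_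
    · obtain ⟨k, hk⟩ := he
      have h4 : (n : F4) = 0 := by
        rw [hk, ← two_mul, Nat.cast_mul, h2, zero_mul]
      rw [h4, N, Finset.sum_eq_single i0]
      · simp
      · intro j _ hj
        rw [Pi.single_eq_of_ne hj]; norm_num
      · intro h; exact absurd (Finset.mem_univ _) h
    · obtain ⟨g, hg⟩ := perm_mem (Equiv.swap i0 i1)
      refine ⟨g, ?_⟩
      rintro ⟨c, hc⟩
      have h5 := congrFun hc i0
      rw [hg, Equiv.swap_apply_left, Pi.single_eq_of_ne h01.symm, Pi.smul_apply, Pi.single_eq_same,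
        smul_eq_mul, mul_one] at h5
      exact c.ne_zero h5.symm
  · -- `n` odd: the vector `e₀ + e₁`
    refine main n (by omega) (Pi.single i0 1 + Pi.single i1 1) ?_ ?_
    · obtain ⟨k, hk⟩ := ho
      have h4 : (n : F4) = 1 := by
        rw [hk, Nat.cast_add, Nat.cast_mul, h2, zero_mul, zero_add, Nat.cast_one]
      have h5 : N (Pi.single i0 1 + Pi.single i1 1 : Fin n → F4) = 0 := by
        rw [N, ← Finset.sum_subset (Finset.subset_univ {i0, i1}), Finset.sum_pair h01]
        · rw [Pi.add_apply, Pi.add_apply, Pi.single_eq_same, Pi.single_eq_same,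
            Pi.single_eq_of_ne h01, Pi.single_eq_of_ne h01.symm, add_zero, zero_add, one_pow]
          exact CharTwo.add_self_eq_zero 1
        · intro j _ hj
          simp only [Finset.mem_insert, Finset.mem_singleton, not_or] at hj
          rw [Pi.add_apply, Pi.single_eq_of_ne hj.1, Pi.single_eq_of_ne hj.2]
          norm_num
      rw [h4, h5]
      exact zero_ne_one
    · obtain ⟨g, hg⟩ := perm_mem (Equiv.swap i1 i2)
      refine ⟨g, ?_⟩
      rintro ⟨c, hc⟩
      have h5 := congrFun hc i1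
      rw [hg, Equiv.swap_apply_left, Pi.smul_apply, Pi.add_apply, Pi.add_apply,
        Pi.single_eq_of_ne h02.symm, Pi.single_eq_of_ne h12.symm, Pi.single_eq_of_ne h01.symm,
        Pi.single_eq_same, zero_add, zero_add, smul_eq_mul, mul_one] at h5
      exact c.ne_zero h5.symm

end

end Pool.Agent.Results.MP_1b60fb_al.UnitaryTwo
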